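import Pool.Agent.Q191.TR.Final

/-!
# MP_354e85_al: residually finite groups of cost larger than one have Tarski number at most six

The bound holds for every group which has a finitely generated residually finite section whose cost
is larger than one or whose rank gradient is positive, and it is attained by every torsion group of
this kind.
-/

set_option autoImplicit false

open MeasureTheory

namespace Pool.Agent.Results.MP_354e85_al.ResiduallyFiniteSections

/-- The cost of the countable group `H` is at least `c`: for every essentially free probability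
measure preserving action of `H` on a standard Borel space, every graphing of the orbit relation,
given by restrictions `y ↦ s i • y`, `y ∈ A i`, of elements of `H` to measurable sets, has cost
at least `c`. -/
def CostAtLeast (H : Type) [Group H] (c : ENNReal) : Prop :=
  ∀ (X : Type) [MeasurableSpace X] [StandardBorelSpace X] (μ : Measure X)
    [IsProbabilityMeasure μ] [MulAction H X],
    (∀ g : H, MeasurePreserving (fun x : X => g • x) μ μ) →
    (∀ᵐ x ∂μ, ∀ g : H, g • x = x → g = 1) →
    ∀ (A : ℕ → Set X) (s : ℕ → H), (∀ i, MeasurableSet (A i)) →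
      (∀ᵐ x ∂μ, ∀ g : H, Relation.ReflTransGen
        (fun y z : X => ∃ i, (y ∈ A i ∧ z = s i • y) ∨ (z ∈ A i ∧ y = s i • z)) x (g • x)) →
      c ≤ ∑' i, μ (A i)

/-- The cost of `H` is larger than one. -/
def CostGreaterThanOne (H : Type) [Group H] : Prop :=
  ∃ ε : ENNReal, 0 < ε ∧ CostAtLeast H (1 + ε)

/-- `H` has positive rank gradient: for some `ε > 0`, a subgroup `N` of finite index cannot be
generated by fewer than `1 + ε [H : N]` elements. -/
def PositiveRankGradient (H : Type) [Group H] : Prop :=
  ∃ ε : ℝ, 0 < ε ∧ ∀ N : Subgroup H, N.FiniteIndex → ∀ T : Finset H,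
    Subgroup.closure (T : Set H) = N → 1 + ε * N.index ≤ T.card

/-- `G` has a paradoxical decomposition with at most `N` pieces. -/
def Paradoxical (G : Type) [Group G] (N : ℕ) : Prop :=
  ∃ m n : ℕ, m + n ≤ N ∧
    ∃ (A : Fin m → Set G) (B : Fin n → Set G) (g : Fin m → G) (h : Fin n → G),
      (∀ x : G, ∃! p : Fin m ⊕ Fin n, x ∈ Sum.elim A B p) ∧
      (∀ x : G, ∃! i : Fin m, (g i)⁻¹ * x ∈ A i) ∧
      (∀ x : G, ∃! j : Fin n, (h j)⁻¹ * x ∈ B j)

/-- Let `H` be a finitely generated residually finite group whose cost is larger than one or whose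
rank gradient is positive.  Then every group `G` which has `H` as a section (a quotient `f` of a
subgroup `M`) has a paradoxical decomposition with at most six pieces; and if every element of `G`
has finite order, there is none with at most five pieces, so the Tarski number of `G` is six. -/
theorem result (H : Type) [Group H] (hfg : Group.FG H) (hrf : Group.ResiduallyFinite H)
    (hH : CostGreaterThanOne H ∨ PositiveRankGradient H)
    (G : Type) [Group G] (M : Subgroup G) (f : M →* H) (hf : Function.Surjective f) :
    Paradoxical G 6 ∧ ((∀ g : G, IsOfFinOrder g) → ¬ Paradoxical G 5) := by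
  classical
  obtain ⟨S, hS⟩ := Group.fg_def.1 hfg
  have hcount : Countable H := Pool.Agent.Q191.TR.countable_of_gen S hS
  have hrg : ∃ δ : ℝ, 0 < δ ∧ Pool.Agent.Q191.TR.RGpos H δ := by
    rcases hH with ⟨ε, hε, hc⟩ | ⟨ε, hε, hc⟩
    · refine Pool.Agent.Q191.TR.rg_of_cost hε ?_
      rintro c hc' ⟨X, h1, h2, μ, h3, h4, h5, h6, A, s, h7, h8, h9⟩
      exact absurd ((hc X μ h5 h6 A s h7 h8).trans h9) (not_le.2 hc')
    · refine ⟨ε, hε, fun N hN T hT => ?_⟩
      have := hc N hN T hT
      linarith
  obtain ⟨δ, hδ, hrg⟩ := hrg
  exact ⟨Pool.Agent.Q191.TR.main6 M.subtype M.subtype_injective f hf S hS hδ hrg,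
    fun ht => Pool.Agent.Q191.TR.not_parad_five ht⟩

end Pool.Agent.Results.MP_354e85_al.ResiduallyFiniteSections
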